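import Mathlib

open MeasureTheory ProbabilityTheory

namespace Pool.Agent.Helper65.SH

/-- A probability law on `ι → ℝ` is centred Gaussian with covariance `K`
(which may be degenerate): its characteristic function is the expected one. -/
def CG {ι : Type*} [Fintype ι] (μ : Measure (ι → ℝ)) (K : ι → ι → ℝ) : Prop :=
  ∀ t : ι → ℝ, ∫ x, Complex.exp (((∑ i, t i * x i : ℝ) : ℂ) * Complex.I) ∂μ
    = Complex.exp (-(((∑ i, ∑ j, t i * t j * K i j : ℝ) : ℂ)) / 2)

theorem CG.prob {ι : Type*} [Fintype ι] {μ : Measure (ι → ℝ)} {K : ι → ι → ℝ} (h : CG μ K) :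
    IsProbabilityMeasure μ := by
  have h0 := h 0
  simp only [Pi.zero_apply, zero_mul, Finset.sum_const_zero, Complex.ofReal_zero, neg_zero,
    zero_div, Complex.exp_zero, integral_const, Complex.real_smul, mul_one] at h0
  have h1 : μ.real Set.univ = 1 := by exact_mod_cast h0
  constructor
  rw [Measure.real, ENNReal.toReal_eq_one_iff] at h1
  exact h1

theorem dual_eq {ι : Type*} [Fintype ι] [DecidableEq ι] (L : StrongDual ℝ (ι → ℝ)) (x : ι → ℝ) :
    L x = ∑ i, L (Pi.single i 1) * x i := by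
  conv_lhs => rw [← Finset.univ_sum_single x, map_sum]
  refine Finset.sum_congr rfl fun i _ => ?_
  have : (Pi.single i (x i) : ι → ℝ) = x i • Pi.single i (1 : ℝ) := by
    rw [← Pi.single_smul, smul_eq_mul, mul_one]
  rw [this, map_smul, smul_eq_mul, mul_comm]

theorem ext_of_cf {ι : Type*} [Fintype ι] {μ ν : Measure (ι → ℝ)} [IsFiniteMeasure μ]
    [IsFiniteMeasure ν]
    (h : ∀ t : ι → ℝ, ∫ x, Complex.exp (((∑ i, t i * x i : ℝ) : ℂ) * Complex.I) ∂μ
      = ∫ x, Complex.exp (((∑ i, t i * x i : ℝ) : ℂ) * Complex.I) ∂ν) : μ = ν := by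
  classical
  apply Measure.ext_of_charFunDual
  ext L
  rw [charFunDual_apply, charFunDual_apply]
  have := h (fun i => L (Pi.single i 1))
  simp only [← dual_eq L] at this
  exact this

theorem CG.unique {ι : Type*} [Fintype ι] {μ ν : Measure (ι → ℝ)} {K : ι → ι → ℝ}
    (hμ : CG μ K) (hν : CG ν K) : μ = ν := by
  have := hμ.prob
  have := hν.prob
  exact ext_of_cf fun t => by rw [hμ t, hν t]

theorem meas_lin {ι κ : Type*} [Fintype ι] (A : κ → ι → ℝ) :
    Measurable (fun (x : ι → ℝ) (k : κ) => ∑ i, A k i * x i) := by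
  refine measurable_pi_lambda _ fun k => ?_
  exact Finset.measurable_sum _ fun i _ => (measurable_pi_apply i).const_mul _

theorem quad_push {ι κ : Type*} [Fintype ι] [Fintype κ] (K : ι → ι → ℝ) (A : κ → ι → ℝ)
    (t : κ → ℝ) :
    ∑ i, ∑ j, (∑ k, t k * A k i) * (∑ l, t l * A l j) * K i j
      = ∑ k, ∑ l, t k * t l * (∑ i, ∑ j, A k i * A l j * K i j) := by
  have e1 : ∀ k l, t k * t l * (∑ i, ∑ j, A k i * A l j * K i j)
      = ∑ i, ∑ j, (t k * A k i) * (t l * A l j) * K i j := by
    intro k l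
    rw [Finset.mul_sum]
    refine Finset.sum_congr rfl fun i _ => ?_
    rw [Finset.mul_sum]
    refine Finset.sum_congr rfl fun j _ => ?_
    ring
  simp only [e1]
  have e2 : ∀ i j, (∑ k, t k * A k i) * (∑ l, t l * A l j) * K i j
      = ∑ k, ∑ l, (t k * A k i) * (t l * A l j) * K i j := by
    intro i j
    rw [Finset.sum_mul_sum, Finset.sum_mul]
    refine Finset.sum_congr rfl fun k _ => ?_
    rw [Finset.sum_mul]
  simp only [e2]
  calc ∑ i, ∑ j, ∑ k, ∑ l, (t k * A k i) * (t l * A l j) * K i j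
      = ∑ i, ∑ k, ∑ j, ∑ l, (t k * A k i) * (t l * A l j) * K i j := by
        refine Finset.sum_congr rfl fun i _ => Finset.sum_comm
    _ = ∑ k, ∑ i, ∑ j, ∑ l, (t k * A k i) * (t l * A l j) * K i j := Finset.sum_comm
    _ = ∑ k, ∑ i, ∑ l, ∑ j, (t k * A k i) * (t l * A l j) * K i j := by
        refine Finset.sum_congr rfl fun k _ => Finset.sum_congr rfl fun i _ => Finset.sum_comm
    _ = ∑ k, ∑ l, ∑ i, ∑ j, (t k * A k i) * (t l * A l j) * K i j := by
        refine Finset.sum_congr rfl fun k _ => Finset.sum_comm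

theorem pair_push {ι κ : Type*} [Fintype ι] [Fintype κ] (A : κ → ι → ℝ) (t : κ → ℝ) (x : ι → ℝ) :
    ∑ k, t k * (∑ i, A k i * x i) = ∑ i, (∑ k, t k * A k i) * x i := by
  simp only [Finset.mul_sum, Finset.sum_mul]
  rw [Finset.sum_comm]
  refine Finset.sum_congr rfl fun i _ => Finset.sum_congr rfl fun k _ => ?_
  ring

theorem cf_meas {ι : Type*} [Fintype ι] (t : ι → ℝ) :
    Measurable (fun x : ι → ℝ => Complex.exp (((∑ i, t i * x i : ℝ) : ℂ) * Complex.I)) := by
  have : Measurable (fun x : ι → ℝ => ∑ i, t i * x i) :=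
    Finset.measurable_sum _ fun i _ => (measurable_pi_apply i).const_mul _
  fun_prop

/-- Linear images. -/
theorem CG.map {ι κ : Type*} [Fintype ι] [Fintype κ] {μ : Measure (ι → ℝ)} {K : ι → ι → ℝ}
    (h : CG μ K) (A : κ → ι → ℝ) :
    CG (μ.map (fun (x : ι → ℝ) (k : κ) => ∑ i, A k i * x i))
      (fun k l => ∑ i, ∑ j, A k i * A l j * K i j) := by
  intro t
  rw [integral_map (meas_lin A).aemeasurable (cf_meas t).aestronglyMeasurable]
  simp only [pair_push A t]
  rw [h (fun i => ∑ k, t k * A k i), quad_push]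

/-- A linear map given as a function. -/
theorem CG.map' {ι κ : Type*} [Fintype ι] [Fintype κ] {μ : Measure (ι → ℝ)} {K : ι → ι → ℝ}
    (h : CG μ K) (A : κ → ι → ℝ) {F : (ι → ℝ) → κ → ℝ} (hF : ∀ x k, F x k = ∑ i, A k i * x i)
    {K' : κ → κ → ℝ} (hK : ∀ k l, K' k l = ∑ i, ∑ j, A k i * A l j * K i j) :
    CG (μ.map F) K' := by
  have e1 : F = fun (x : ι → ℝ) (k : κ) => ∑ i, A k i * x i := by
    funext x k; exact hF x k
  have e2 : K' = fun k l => ∑ i, ∑ j, A k i * A l j * K i j := by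
    funext k l; exact hK k l
  rw [e1, e2]
  exact h.map A

/-- Reindexing. -/
theorem CG.comp {ι κ : Type*} [Fintype ι] [Fintype κ] {μ : Measure (ι → ℝ)} {K : ι → ι → ℝ}
    (h : CG μ K) (g : κ → ι) :
    CG (μ.map (fun (x : ι → ℝ) (k : κ) => x (g k))) (fun k l => K (g k) (g l)) := by
  classical
  refine h.map' (fun k i => if i = g k then 1 else 0) (fun x k => ?_) (fun k l => ?_)
  · simp
  · rw [Finset.sum_eq_single (g k)]
    · rw [Finset.sum_eq_single (g l)]
      · simp
      · intro j _ hj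
        simp [hj]
      · intro hh; exact absurd (Finset.mem_univ _) hh
    · intro i _ hi
      simp [hi]
    · intro hh; exact absurd (Finset.mem_univ _) hh

/-- Product of independent vectors, in the sum type. -/
theorem CG.sum {ι κ : Type*} [Fintype ι] [Fintype κ] {μ : Measure (ι → ℝ)} {ν : Measure (κ → ℝ)}
    {K : ι → ι → ℝ} {H : κ → κ → ℝ} (hμ : CG μ K) (hν : CG ν H) :
    CG ((μ.prod ν).map (fun p : (ι → ℝ) × (κ → ℝ) => Sum.elim p.1 p.2))
      (fun a b => Sum.elim (fun i => Sum.elim (fun j => K i j) (fun _ => 0) b)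
        (fun k => Sum.elim (fun _ => 0) (fun l => H k l) b) a) := by
  have := hμ.prob
  have := hν.prob
  intro t
  have hm : Measurable (fun p : (ι → ℝ) × (κ → ℝ) => (Sum.elim p.1 p.2 : ι ⊕ κ → ℝ)) := by
    refine measurable_pi_lambda _ fun a => ?_
    rcases a with i | k
    · exact (measurable_pi_apply i).comp measurable_fst
    · exact (measurable_pi_apply k).comp measurable_snd
  rw [integral_map hm.aemeasurable (cf_meas t).aestronglyMeasurable]
  simp only [Fintype.sum_sum_type, Sum.elim_inl, Sum.elim_inr]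
  have e : ∀ p : (ι → ℝ) × (κ → ℝ),
      Complex.exp (((∑ i, t (Sum.inl i) * p.1 i + ∑ k, t (Sum.inr k) * p.2 k : ℝ) : ℂ) * Complex.I)
      = Complex.exp (((∑ i, t (Sum.inl i) * p.1 i : ℝ) : ℂ) * Complex.I)
        * Complex.exp (((∑ k, t (Sum.inr k) * p.2 k : ℝ) : ℂ) * Complex.I) := by
    intro p
    rw [← Complex.exp_add]
    congr 1
    push_cast
    ring
  simp only [e]
  rw [integral_prod_mul
    (fun x : ι → ℝ => Complex.exp (((∑ i, t (Sum.inl i) * x i : ℝ) : ℂ) * Complex.I))
    (fun y : κ → ℝ => Complex.exp (((∑ k, t (Sum.inr k) * y k : ℝ) : ℂ) * Complex.I))]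
  rw [hμ (fun i => t (Sum.inl i)), hν (fun k => t (Sum.inr k)), ← Complex.exp_add]
  congr 1
  simp only [mul_zero, Finset.sum_const_zero, add_zero, zero_add]
  push_cast
  ring

/-- Linear combination of two independent Gaussian vectors. -/
theorem CG.lin2 {ι κ ρ : Type*} [Fintype ι] [Fintype κ] [Fintype ρ] {μ : Measure (ι → ℝ)}
    {ν : Measure (κ → ℝ)} {K : ι → ι → ℝ} {H : κ → κ → ℝ} (hμ : CG μ K) (hν : CG ν H)
    (A : ρ → ι → ℝ) (B : ρ → κ → ℝ) {F : (ι → ℝ) × (κ → ℝ) → ρ → ℝ}
    (hF : ∀ p r, F p r = ∑ i, A r i * p.1 i + ∑ k, B r k * p.2 k) {K' : ρ → ρ → ℝ}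
    (hK : ∀ r s, K' r s = ∑ i, ∑ j, A r i * A s j * K i j + ∑ i, ∑ j, B r i * B s j * H i j) :
    CG ((μ.prod ν).map F) K' := by
  have := hμ.prob
  have := hν.prob
  have h := (hμ.sum hν).map' (κ := ρ) (fun r => Sum.elim (A r) (B r))
    (F := fun x r => ∑ a, (Sum.elim (A r) (B r) : ι ⊕ κ → ℝ) a * x a)
    (fun _ _ => rfl) (K' := K') (fun r s => by
      rw [hK]
      simp only [Fintype.sum_sum_type, Sum.elim_inl, Sum.elim_inr, mul_zero,
        Finset.sum_const_zero, add_zero, zero_add])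
  rw [Measure.map_map] at h
  · have e : ((fun (x : ι ⊕ κ → ℝ) (r : ρ) => ∑ a, (Sum.elim (A r) (B r) : ι ⊕ κ → ℝ) a * x a) ∘
        fun p : (ι → ℝ) × (κ → ℝ) => Sum.elim p.1 p.2) = F := by
      funext p r
      simp [hF]
    rwa [e] at h
  · exact meas_lin _
  · refine measurable_pi_lambda _ fun a => ?_
    rcases a with i | k
    · exact (measurable_pi_apply i).comp measurable_fst
    · exact (measurable_pi_apply k).comp measurable_snd

/-- Convolution (sum of two independent vectors). -/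
theorem CG.add {ι : Type*} [Fintype ι] {μ ν : Measure (ι → ℝ)}
    {K H : ι → ι → ℝ} (hμ : CG μ K) (hν : CG ν H) :
    CG ((μ.prod ν).map (fun p i => p.1 i + p.2 i)) (fun i j => K i j + H i j) := by
  classical
  refine hμ.lin2 hν (fun r i => if i = r then 1 else 0) (fun r i => if i = r then 1 else 0)
    (fun p r => ?_) (fun r s => ?_)
  · simp
  · have e : ∀ M : ι → ι → ℝ,
        ∑ i, ∑ j, (if i = r then (1 : ℝ) else 0) * (if j = s then 1 else 0) * M i j = M r s := by
      intro M
      rw [Finset.sum_eq_single r]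
      · rw [Finset.sum_eq_single s]
        · simp
        · intro j _ hj
          simp [hj]
        · intro hh; exact absurd (Finset.mem_univ _) hh
      · intro i _ hi
        simp [hi]
      · intro hh; exact absurd (Finset.mem_univ _) hh
    rw [e, e]

/-- The point mass. -/
theorem CG.dirac {ι : Type*} [Fintype ι] : CG (Measure.dirac (0 : ι → ℝ)) (fun _ _ => 0) := by
  intro t
  rw [integral_dirac]
  simp

/-- The standard normal law (on the functions on a one-point type). -/
theorem CG.std {ι : Type*} [Fintype ι] [Unique ι] :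
    CG ((gaussianReal 0 1).map (fun (x : ℝ) (_ : ι) => x)) (fun _ _ => 1) := by
  intro t
  have hm : Measurable (fun (x : ℝ) (_ : ι) => x) := measurable_pi_lambda _ fun _ => measurable_id
  rw [integral_map hm.aemeasurable (cf_meas t).aestronglyMeasurable]
  have h := charFun_gaussianReal (μ := 0) (v := 1) (t default)
  rw [charFun_apply_real] at h
  simp only [Fintype.sum_unique, mul_one]
  have e : ∀ x : ℝ, Complex.exp (((t default * x : ℝ) : ℂ) * Complex.I)
      = Complex.exp (((t default : ℝ) : ℂ) * ((x : ℝ) : ℂ) * Complex.I) := by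
    intro x
    push_cast
    rfl
  simp only [e]
  rw [h]
  congr 1
  push_cast
  simp
  ring

/-- A centred Gaussian law exists for every positive semidefinite matrix. -/
theorem CG.exists {ι : Type*} [Fintype ι] [DecidableEq ι] {K : Matrix ι ι ℝ} (hK : K.PosSemidef) :
    ∃ μ : Measure (ι → ℝ), CG μ K := by
  refine ⟨(multivariateGaussian 0 K).map (fun x : EuclideanSpace ℝ ι => (fun i => x i)), ?_⟩
  intro t
  have hm : Measurable (fun x : EuclideanSpace ℝ ι => (fun i => x i : ι → ℝ)) := by fun_prop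
  rw [integral_map hm.aemeasurable (cf_meas t).aestronglyMeasurable]
  have h := charFun_multivariateGaussian (μ := (0 : EuclideanSpace ℝ ι)) hK (WithLp.toLp 2 t)
  rw [charFun_apply] at h
  have e : ∀ x : EuclideanSpace ℝ ι, inner ℝ x (WithLp.toLp 2 t) = ∑ i, t i * x i := by
    intro x
    simp [PiLp.inner_apply]
  simp only [e] at h
  rw [h]
  congr 1
  simp only [inner_zero_right, Complex.ofReal_zero, zero_mul, zero_sub]
  have e2 : (WithLp.toLp 2 t).ofLp ⬝ᵥ K.mulVec (WithLp.toLp 2 t).ofLp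
      = ∑ i, ∑ j, t i * t j * K i j := by
    simp only [dotProduct, Matrix.mulVec, Finset.mul_sum]
    refine Finset.sum_congr rfl fun i _ => Finset.sum_congr rfl fun j _ => ?_
    ring
  rw [e2]
  ring

/-- SPLIT: a Gaussian law whose covariance dominates that of `μ₁` gives to every event at most
the largest `μ₁`-mass of its translates. -/
theorem CG.split {ι : Type*} [Fintype ι] {μ μ₁ : Measure (ι → ℝ)} {K K₁ : ι → ι → ℝ}
    (hμ : CG μ K) (hμ₁ : CG μ₁ K₁)
    (hK : (Matrix.of fun i j => K i j - K₁ i j).PosSemidef)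
    {A : Set (ι → ℝ)} (hA : MeasurableSet A) {b : ENNReal}
    (hb : ∀ θ : ι → ℝ, μ₁ {x | (fun i => x i + θ i) ∈ A} ≤ b) : μ A ≤ b := by
  classical
  obtain ⟨μ₂, hμ₂⟩ := CG.exists hK
  have := hμ.prob
  have := hμ₁.prob
  have := hμ₂.prob
  have h := hμ₁.add hμ₂
  have e : μ = (μ₁.prod μ₂).map (fun p i => p.1 i + p.2 i) := by
    refine hμ.unique ?_
    convert h using 1
    funext i j
    simp
  have hm : Measurable (fun (p : (ι → ℝ) × (ι → ℝ)) (i : ι) => p.1 i + p.2 i) := by
    refine measurable_pi_lambda _ fun i => ?_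
    exact ((measurable_pi_apply i).comp measurable_fst).add
      ((measurable_pi_apply i).comp measurable_snd)
  rw [e, Measure.map_apply hm hA, Measure.prod_apply_symm (hm hA)]
  calc ∫⁻ y, μ₁ ((fun x => (x, y)) ⁻¹' ((fun p i => p.1 i + p.2 i) ⁻¹' A)) ∂μ₂
      ≤ ∫⁻ _, b ∂μ₂ := lintegral_mono fun y => hb y
    _ = b := by simp

/-- Independent families. -/
theorem CG.pi {α ι : Type*} [Fintype α] [DecidableEq α] [Fintype ι] {μ : α → Measure (ι → ℝ)}
    {K : α → ι → ι → ℝ} (h : ∀ a, CG (μ a) (K a)) :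
    CG ((Measure.pi μ).map (fun (f : α → ι → ℝ) (p : α × ι) => f p.1 p.2))
      (fun p q => if p.1 = q.1 then K p.1 p.2 q.2 else 0) := by
  have hp : ∀ a, IsProbabilityMeasure (μ a) := fun a => (h a).prob
  intro t
  have hm : Measurable (fun (f : α → ι → ℝ) (p : α × ι) => f p.1 p.2) :=
    measurable_pi_lambda _ fun p => (measurable_pi_apply p.2).comp (measurable_pi_apply p.1)
  rw [integral_map hm.aemeasurable (cf_meas t).aestronglyMeasurable]
  have e : ∀ f : α → ι → ℝ,
      Complex.exp (((∑ p : α × ι, t p * f p.1 p.2 : ℝ) : ℂ) * Complex.I)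
      = ∏ a, Complex.exp (((∑ i, t (a, i) * f a i : ℝ) : ℂ) * Complex.I) := by
    intro f
    rw [← Complex.exp_sum, ← Finset.sum_mul, ← Complex.ofReal_sum, Fintype.sum_prod_type]
  simp only [e]
  rw [integral_fintype_prod_eq_prod
    (fun (a : α) (x : ι → ℝ) => Complex.exp (((∑ i, t (a, i) * x i : ℝ) : ℂ) * Complex.I))]
  simp only [(h _) _]
  rw [← Complex.exp_sum]
  congr 1
  rw [← Finset.sum_div, Finset.sum_neg_distrib, ← Complex.ofReal_sum]
  congr 3
  rw [Fintype.sum_prod_type]
  refine Finset.sum_congr rfl fun a _ => Finset.sum_congr rfl fun i _ => ?_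
  rw [Fintype.sum_prod_type, Finset.sum_eq_single a]
  · simp
  · intro b _ hb
    refine Finset.sum_eq_zero fun j _ => ?_
    simp [Ne.symm hb]
  · intro hh; exact absurd (Finset.mem_univ _) hh

/-- Finite families of values of a centred Gaussian process. -/
theorem CG.of_process {Ω T ι : Type*} {mΩ : MeasurableSpace Ω} {P : Measure Ω} [Fintype ι]
    {B : T → Ω → ℝ} (hB : IsGaussianProcess B P) (h0 : ∀ s, ∫ ω, B s ω ∂P = 0) {K : T → T → ℝ}
    (hK : ∀ s t, ∫ ω, B s ω * B t ω ∂P = K s t) (g : ι → T) :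
    CG (P.map (fun ω i => B (g i) ω)) (fun i j => K (g i) (g j)) := by
  have hP := hB.isProbabilityMeasure
  intro t
  have hm : AEMeasurable (fun ω (i : ι) => B (g i) ω) P :=
    aemeasurable_pi_lambda _ fun i => hB.aemeasurable (g i)
  rw [integral_map hm (cf_meas t).aestronglyMeasurable]
  have hL : ∀ s, MemLp (B s) 2 P := fun s => (hB.hasGaussianLaw_eval s).memLp_two
  have hs : HasGaussianLaw (fun ω => ∑ i, t i * B (g i) ω) P := by
    have h1 : IsGaussianProcess (B ∘ g) P := hB.comp_right g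
    have h2 := (h1.smul t).hasGaussianLaw_fun_sum (I := Finset.univ)
    simpa [smul_eq_mul] using h2
  have hc := hs.charFun_map_eq (1 : ℝ)
  rw [charFun_apply_real, integral_map hs.aemeasurable (by fun_prop)] at hc
  have e1 : ∀ ω, Complex.exp (((1 : ℝ) : ℂ) * (((∑ i, t i * B (g i) ω : ℝ) : ℂ)) * Complex.I)
      = Complex.exp (((∑ i, t i * B (g i) ω : ℝ) : ℂ) * Complex.I) := by
    intro ω
    rw [Complex.ofReal_one, one_mul]
  simp only [e1] at hc
  rw [hc]
  have e2 : ∀ ω, inner ℝ (1 : ℝ) (∑ i, t i * B (g i) ω) = ∑ i, t i * B (g i) ω := by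
    intro ω
    simp
  simp only [e2]
  have hint : ∀ s, Integrable (B s) P := fun s => (hL s).integrable (by norm_num)
  have e3 : ∫ ω, ∑ i, t i * B (g i) ω ∂P = 0 := by
    rw [integral_finsetSum _ fun i _ => (hint (g i)).const_mul _]
    simp [integral_const_mul, h0]
  have e4 : variance (fun ω => ∑ i, t i * B (g i) ω) P
      = ∑ i, ∑ j, t i * t j * K (g i) (g j) := by
    rw [variance_fun_sum fun i => (hL (g i)).const_mul (t i)]
    refine Finset.sum_congr rfl fun i _ => Finset.sum_congr rfl fun j _ => ?_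
    rw [covariance_const_mul_left, covariance_const_mul_right, covariance_eq_sub (hL _) (hL _),
      h0, h0]
    simp only [Pi.mul_apply, hK]
    ring
  rw [e3, e4]
  congr 1
  push_cast
  ring

end Pool.Agent.Helper65.SH
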