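import Pool.Agent.Sheet.Basic
import Pool.Agent.Helper65.SH.Gauss

open MeasureTheory ProbabilityTheory Sheet

namespace Pool.Agent.Helper65.SH

universe u

theorem isGK_iff {Q : Type*} [Fintype Q] (μ : Measure (Q → ℝ)) (K : Q → Q → ℝ) :
    IsGK μ K ↔ CG μ K := by
  have e : ∀ a : Q → ℝ, Complex.exp (((-(∑ x, ∑ y, a x * a y * K x y) / 2 : ℝ) : ℂ))
      = Complex.exp (-(((∑ x, ∑ y, a x * a y * K x y : ℝ) : ℂ)) / 2) := by
    intro a
    congr 1
    push_cast
    rfl
  constructor
  · rintro ⟨_, h⟩ t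
    rw [h t, e]
  · intro h
    refine ⟨h.prob, fun a => ?_⟩
    rw [h a, e]

/-- GAUSS, part 1 -/
theorem gkUnique : StmtGKUnique := by
  intro Q _ μ ν K hμ hν
  exact ((isGK_iff μ K).1 hμ).unique ((isGK_iff ν K).1 hν)

theorem posSemidef_of_rep {Q : Type*} [Fintype Q] [DecidableEq Q] {K : Q → Q → ℝ} (h : Rep K) :
    (Matrix.of fun i j => K i j).PosSemidef := by
  obtain ⟨n, φ, hφ⟩ := h
  have e : (Matrix.of fun i j => K i j)
      = (Matrix.of φ).conjTranspose * (Matrix.of φ) := by
    ext i j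
    rw [Matrix.mul_apply]
    simp [hφ]
  rw [e]
  exact Matrix.posSemidef_conjTranspose_mul_self _

/-- GAUSS, part 2 -/
theorem gkExists : StmtGKExists := by
  classical
  intro Q _ K h
  obtain ⟨μ, hμ⟩ := CG.exists (posSemidef_of_rep h)
  exact ⟨μ, (isGK_iff μ K).2 hμ⟩

theorem CG.smul {ι : Type*} [Fintype ι] {μ : Measure (ι → ℝ)} {K : ι → ι → ℝ}
    (h : CG μ K) (α : ℝ) :
    CG (μ.map (fun (x : ι → ℝ) (k : ι) => α * x k)) (fun k l => α ^ 2 * K k l) := by
  classical
  refine h.map' (fun k i => if i = k then α else 0) (fun x k => ?_) (fun k l => ?_)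
  · simp
  · rw [Finset.sum_eq_single k]
    · rw [Finset.sum_eq_single l]
      · simp [pow_two]
      · intro j _ hj
        simp [hj]
      · intro hh; exact absurd (Finset.mem_univ _) hh
    · intro i _ hi
      simp [hi]
    · intro hh; exact absurd (Finset.mem_univ _) hh

theorem meas_box {ι : Type*} [Countable ι] (c : ℝ) : MeasurableSet {f : ι → ℝ | ∀ x, |f x| ≤ c} := by
  have e : {f : ι → ℝ | ∀ x, |f x| ≤ c} = ⋂ x, {f : ι → ℝ | |f x| ≤ c} := by
    ext f; simp
  rw [e]
  refine MeasurableSet.iInter fun x => ?_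
  exact measurableSet_le ((measurable_pi_apply x).abs) measurable_const

/-- GAUSS, part 5 -/
theorem gkShift : StmtGKShift := by
  classical
  intro Q _ μ τ K κ ρ α ε b hμ hτ hρ hK hb
  have hμ' := (isGK_iff _ _).1 hμ
  have hτ' := (isGK_iff _ _).1 hτ
  have hτp := hτ.1
  have hμp := hμ.1
  have hb0 : 0 ≤ b := le_trans (by exact measureReal_nonneg) (hb 0)
  have hps : (Matrix.of fun i j => K i j - α ^ 2 * κ i j).PosSemidef := by
    have := posSemidef_of_rep hρ
    have e : (Matrix.of fun i j => K i j - α ^ 2 * κ i j) = Matrix.of fun i j => ρ i j := by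
      ext i j
      simp only [Matrix.of_apply, hK]
      ring
    rw [e]
    exact this
  have hmeas : Measurable (fun (x : Q → ℝ) (k : Q) => α * x k) :=
    measurable_pi_lambda _ fun k => (measurable_pi_apply k).const_mul _
  have key := hμ'.split (hτ'.smul α) hps (meas_box (ι := Q) ε) (b := ENNReal.ofReal b) (by
    intro θ
    have hm2 : MeasurableSet {x : Q → ℝ | (fun i => x i + θ i) ∈ {f : Q → ℝ | ∀ x, |f x| ≤ ε}} := by
      have : Measurable (fun (x : Q → ℝ) (i : Q) => x i + θ i) :=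
        measurable_pi_lambda _ fun k => (measurable_pi_apply k).add_const _
      exact this (meas_box ε)
    rw [Measure.map_apply hmeas hm2, ENNReal.le_ofReal_iff_toReal_le (measure_ne_top _ _) hb0]
    exact hb θ)
  rw [Measure.real]
  exact ENNReal.toReal_le_of_le_ofReal hb0 key

/-- GAUSS, part 6 -/
theorem gkSheet : StmtGKSheet.{u} := by
  intro d Ω _ P B hB Q _ p
  have hP := hB.gaussian.isProbabilityMeasure
  rw [isGK_iff]
  refine CG.of_process (K := fun x y => ∏ i, min (x i : ℝ) (y i : ℝ)) hB.gaussian hB.mean_zero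
    (fun s t => ?_) p
  have hL : ∀ s, MemLp (B s) 2 P := fun s => (hB.gaussian.hasGaussianLaw_eval s).memLp_two
  have h := hB.covariance_eq s t
  rw [covariance_eq_sub (hL s) (hL t), hB.mean_zero, hB.mean_zero] at h
  simpa using h

end Pool.Agent.Helper65.SH
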